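import Pool.Agent.W792.Bk.Scale

/-!
# Cutting a corner decreases the length of the boundary
-/

namespace Pool.Agent.W792.Bk

open MeasureTheory Set
open scoped ContDiff Pointwise

theorem lin_periodic (z : ℝ × ℝ) : Function.Periodic (fun θ => lin θ z) (2 * Real.pi) := by
  intro θ
  simp only [lin, Real.cos_add_two_pi, Real.sin_add_two_pi]

theorem supp_periodic (E : Set (ℝ × ℝ)) : Function.Periodic (supp E) (2 * Real.pi) := by
  intro θ
  rw [supp_eq, supp_eq]
  congr 1
  apply image_congr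
  intro z _
  exact lin_periodic z θ

theorem Cau_eq (E : Set (ℝ × ℝ)) (θ₀ : ℝ) :
    Cau E = ∫ θ in (θ₀ - Real.pi)..(θ₀ + Real.pi), supp E θ := by
  unfold Cau
  have h := (supp_periodic E).intervalIntegral_add_eq 0 (θ₀ - Real.pi)
  rw [zero_add] at h
  rw [h]
  congr 1
  ring

theorem lin_sub (θ : ℝ) (z c : ℝ × ℝ) :
    lin θ z - lin θ c = Real.cos θ * (z.1 - c.1) + Real.sin θ * (z.2 - c.2) := by
  unfold lin
  ring

theorem cvx_cut {Ω : Set (ℝ × ℝ)} (hΩ : Cvx Ω) {c : ℝ × ℝ} {A B ε : ℝ}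
    (hne : (cut Ω c A B ε).Nonempty) : Cvx (cut Ω c A B ε) := by
  have h1 : cut Ω c A B ε = Ω ∩ {z : ℝ × ℝ | A * (z.1 - c.1) + B * (z.2 - c.2) < -ε} := rfl
  refine ⟨?_, ?_, hΩ.bd.subset fun z hz => hz.1, hne⟩
  · rw [h1]
    exact hΩ.op.inter (isOpen_lt (by fun_prop) continuous_const)
  · rw [h1]
    refine hΩ.co.inter ?_
    intro x hx y hy s t hs ht hst
    simp only [mem_setOf_eq, Prod.fst_add, Prod.snd_add, Prod.smul_fst, Prod.smul_snd,
      smul_eq_mul] at hx hy ⊢
    have h2 : A * (s * x.1 + t * y.1 - c.1) + B * (s * x.2 + t * y.2 - c.2) =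
        s * (A * (x.1 - c.1) + B * (x.2 - c.2)) + t * (A * (y.1 - c.1) + B * (y.2 - c.2)) := by
      have : s = 1 - t := by linarith
      rw [this]
      ring
    rw [h2]
    rcases eq_or_lt_of_le hs with h0 | h0
    · have ht1 : t = 1 := by linarith
      rw [← h0, ht1]
      linarith
    · have : s * (A * (x.1 - c.1) + B * (x.2 - c.2)) < s * -ε := mul_lt_mul_of_pos_left hx h0
      have h3 : t * (A * (y.1 - c.1) + B * (y.2 - c.2)) ≤ t * -ε :=
        mul_le_mul_of_nonneg_left hy.le ht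
      have h4 : s * -ε + t * -ε = -ε := by rw [← add_mul, hst, one_mul]
      linarith

theorem main_corner : S_corner := by
  intro Ω c a b a' b' hΩ hc h h' hne
  -- the coefficients
  set D : ℝ := a * b' - a' * b with hD
  have hD0 : D ≠ 0 := sub_ne_zero.2 hne
  set A : ℝ := a + a' with hA
  set B : ℝ := b + b' with hB
  have hAB : 0 < A ^ 2 + B ^ 2 := by
    rcases eq_or_ne A 0 with h1 | h1
    · rcases eq_or_ne B 0 with h2 | h2
      · exfalso
        apply hne
        have e1 : a' = -a := by linarith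
        have e2 : b' = -b := by linarith
        rw [e1, e2]
        ring
      · positivity
    · positivity
  set ρ : ℝ := Real.sqrt (A ^ 2 + B ^ 2) with hρ
  have hρ0 : 0 < ρ := Real.sqrt_pos.2 hAB
  obtain ⟨θ₀, hθc, hθs⟩ : ∃ θ₀ : ℝ, Real.cos θ₀ = A / ρ ∧ Real.sin θ₀ = B / ρ := by
    have hz : (⟨A, B⟩ : ℂ) ≠ 0 := by
      intro h0
      have e1 : A = 0 := congrArg Complex.re h0
      have e2 : B = 0 := congrArg Complex.im h0
      rw [e1, e2] at hAB
      simp at hAB
    have hn : ‖(⟨A, B⟩ : ℂ)‖ = ρ := by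
      rw [hρ, Complex.norm_eq_sqrt_sq_add_sq]
    refine ⟨Complex.arg ⟨A, B⟩, ?_, ?_⟩
    · rw [Complex.cos_arg hz, hn]
    · rw [Complex.sin_arg, hn]
  set α : ℝ → ℝ := fun θ => (Real.cos θ * b' - Real.sin θ * a') / D with hα
  set β : ℝ → ℝ := fun θ => (a * Real.sin θ - b * Real.cos θ) / D with hβ
  have hα0 : α θ₀ = 1 / ρ := by
    simp only [hα]
    rw [hθc, hθs, hA, hB, div_eq_div_iff hD0 hρ0.ne']
    field_simp
    rw [hD]
    ring
  have hβ0 : β θ₀ = 1 / ρ := by
    simp only [hβ]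
    rw [hθc, hθs, hA, hB, div_eq_div_iff hD0 hρ0.ne']
    field_simp
    rw [hD]
    ring
  have hαc : Continuous α := by simp only [hα]; fun_prop
  have hβc : Continuous β := by simp only [hβ]; fun_prop
  have hcos : ∀ θ, Real.cos θ = α θ * a + β θ * a' := by
    intro θ
    simp only [hα, hβ]
    field_simp
    rw [hD]
    ring
  have hsin : ∀ θ, Real.sin θ = α θ * b + β θ * b' := by
    intro θ
    simp only [hα, hβ]
    field_simp
    rw [hD]
    ring
  set m : ℝ := 1 / (2 * ρ) with hm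
  have hm0 : 0 < m := by positivity
  have hmρ : m < 1 / ρ := by
    rw [hm]
    apply one_div_lt_one_div_of_lt hρ0
    linarith
  obtain ⟨η, hη, hηπ, hη1⟩ : ∃ η : ℝ, 0 < η ∧ η ≤ Real.pi ∧
      ∀ θ ∈ Icc (θ₀ - η) (θ₀ + η), m ≤ α θ ∧ m ≤ β θ := by
    have h1 : ∀ᶠ θ in nhds θ₀, m < α θ :=
      hαc.continuousAt.eventually (lt_mem_nhds (by rw [hα0]; exact hmρ))
    have h2 : ∀ᶠ θ in nhds θ₀, m < β θ :=
      hβc.continuousAt.eventually (lt_mem_nhds (by rw [hβ0]; exact hmρ))
    obtain ⟨r, hr, hr1⟩ := Metric.eventually_nhds_iff.1 (h1.and h2)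
    refine ⟨min (r / 2) Real.pi, lt_min (by positivity) Real.pi_pos, min_le_right _ _, ?_⟩
    intro θ hθ
    have h3 : dist θ θ₀ < r := by
      rw [Real.dist_eq, abs_lt]
      have := min_le_left (r / 2) Real.pi
      constructor <;> linarith [hθ.1, hθ.2]
    exact ⟨(hr1 h3).1.le, (hr1 h3).2.le⟩
  -- a point of `Ω`
  obtain ⟨z₁, hz₁⟩ := hΩ.ne
  have hz1 := h hz₁
  have hz2 := h' hz₁
  simp only [half, mem_setOf_eq] at hz1 hz2
  set ε₀ : ℝ := -(A * (z₁.1 - c.1) + B * (z₁.2 - c.2)) with hε₀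
  have hε₀0 : 0 < ε₀ := by
    rw [hε₀, hA, hB]
    linarith
  refine ⟨2 * η * m, ε₀, by positivity, hε₀0, fun ε hε hεε => ?_⟩
  have hcne : (cut Ω c A B ε).Nonempty := ⟨z₁, hz₁, by linarith⟩
  have hcv := cvx_cut hΩ hcne
  refine ⟨hcv, ?_⟩
  have hcl : c ∈ closure Ω := frontier_subset_closure hc
  -- monotonicity of the support function
  have hmono : ∀ θ, supp (cut Ω c A B ε) θ ≤ supp Ω θ := by
    intro θ
    rw [supp_eq, supp_eq]
    exact csSup_le_csSup (bdd_lin hΩ.bd θ) (hcne.image _) (image_mono fun z hz => hz.1)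
  have hsc : ∀ θ, lin θ c ≤ supp Ω θ := by
    intro θ
    have hcl2 : closure Ω ⊆ {z | lin θ z ≤ supp Ω θ} := by
      refine closure_minimal (fun z hz => ?_) ?_
      · exact le_csSup (bdd_lin hΩ.bd θ) ⟨z, hz, rfl⟩
      · refine isClosed_le ?_ continuous_const
        unfold lin
        fun_prop
    exact hcl2 hcl
  have hgap : ∀ θ ∈ Icc (θ₀ - η) (θ₀ + η), m * ε ≤ supp Ω θ - supp (cut Ω c A B ε) θ := by
    intro θ hθ
    obtain ⟨h1, h2⟩ := hη1 θ hθ
    have h3 : supp (cut Ω c A B ε) θ ≤ lin θ c - m * ε := by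
      rw [supp_eq]
      refine csSup_le (hcne.image _) ?_
      rintro _ ⟨z, hz, rfl⟩
      have e1 := h hz.1
      have e2 := h' hz.1
      simp only [half, mem_setOf_eq] at e1 e2
      have e3 : A * (z.1 - c.1) + B * (z.2 - c.2) < -ε := hz.2
      have e4 := lin_sub θ z c
      rw [hcos θ, hsin θ] at e4
      have e5 : (α θ * a + β θ * a') * (z.1 - c.1) + (α θ * b + β θ * b') * (z.2 - c.2) =
          α θ * (a * (z.1 - c.1) + b * (z.2 - c.2)) +
            β θ * (a' * (z.1 - c.1) + b' * (z.2 - c.2)) := by ring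
      rw [e5] at e4
      have e6 : α θ * (a * (z.1 - c.1) + b * (z.2 - c.2)) ≤
          m * (a * (z.1 - c.1) + b * (z.2 - c.2)) := mul_le_mul_of_nonpos_right h1 e1.le
      have e7 : β θ * (a' * (z.1 - c.1) + b' * (z.2 - c.2)) ≤
          m * (a' * (z.1 - c.1) + b' * (z.2 - c.2)) := mul_le_mul_of_nonpos_right h2 e2.le
      have e8 : m * (a * (z.1 - c.1) + b * (z.2 - c.2)) +
          m * (a' * (z.1 - c.1) + b' * (z.2 - c.2)) =
          m * (A * (z.1 - c.1) + B * (z.2 - c.2)) := by rw [hA, hB]; ring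
      have e9 : m * (A * (z.1 - c.1) + B * (z.2 - c.2)) ≤ m * -ε :=
        mul_le_mul_of_nonneg_left e3.le hm0.le
      linarith
    have h4 := hsc θ
    linarith
  have hc1 := supp_cont hΩ.bd hΩ.ne
  have hc2 := supp_cont hcv.bd hcv.ne
  have hg : Continuous fun θ => supp Ω θ - supp (cut Ω c A B ε) θ := hc1.sub hc2
  have hkey : 2 * η * m * ε ≤ ∫ θ in (θ₀ - Real.pi)..(θ₀ + Real.pi),
      (supp Ω θ - supp (cut Ω c A B ε) θ) := by
    calc 2 * η * m * ε = ∫ _θ in (θ₀ - η)..(θ₀ + η), m * ε := by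
          rw [intervalIntegral.integral_const, smul_eq_mul]
          ring
      _ ≤ ∫ θ in (θ₀ - η)..(θ₀ + η), (supp Ω θ - supp (cut Ω c A B ε) θ) := by
          refine intervalIntegral.integral_mono_on (by linarith)
            (intervalIntegrable_const) (hg.intervalIntegrable _ _) hgap
      _ ≤ _ := by
          refine intervalIntegral.integral_mono_interval (by linarith) (by linarith)
            (by linarith) ?_ (hg.intervalIntegrable _ _)
          exact Filter.Eventually.of_forall fun θ => sub_nonneg.2 (hmono θ)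
  rw [intervalIntegral.integral_sub (hc1.intervalIntegrable _ _) (hc2.intervalIntegrable _ _),
    ← Cau_eq, ← Cau_eq] at hkey
  linarith

end Pool.Agent.W792.Bk
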