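import Mathlib

/-!
# The buckling load of planar sets: definitions

The plane is `ℝ × ℝ` with Lebesgue measure; gradients and norms are written in coordinates.
-/

namespace Pool.Agent.W792.Bk

open MeasureTheory Set
open scoped ContDiff

/-- The derivative in the first coordinate. -/
noncomputable def dx (u : ℝ × ℝ → ℝ) (z : ℝ × ℝ) : ℝ := fderiv ℝ u z (1, 0)

/-- The derivative in the second coordinate. -/
noncomputable def dy (u : ℝ × ℝ → ℝ) (z : ℝ × ℝ) : ℝ := fderiv ℝ u z (0, 1)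

/-- The Laplacian. -/
noncomputable def lap (u : ℝ × ℝ → ℝ) (z : ℝ × ℝ) : ℝ := dx (dx u) z + dy (dy u) z

/-- Smooth functions with compact support in `Ω`. -/
def Tst (Ω : Set (ℝ × ℝ)) : Set (ℝ × ℝ → ℝ) :=
  {u | ContDiff ℝ ∞ u ∧ HasCompactSupport u ∧ tsupport u ⊆ Ω}

/-- `∫ Δu Δv`. -/
noncomputable def Dq (u v : ℝ × ℝ → ℝ) : ℝ := ∫ z, lap u z * lap v z

/-- `∫ ∇u · ∇v`. -/
noncomputable def Nq (u v : ℝ × ℝ → ℝ) : ℝ := ∫ z, (dx u z * dx v z + dy u z * dy v z)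

/-- The first buckling eigenvalue. -/
noncomputable def Lam (Ω : Set (ℝ × ℝ)) : ℝ :=
  sInf {q | ∃ u ∈ Tst Ω, u ≠ 0 ∧ q = Dq u u / Nq u u}

/-- The De Giorgi perimeter. -/
noncomputable def per (E : Set (ℝ × ℝ)) : ENNReal :=
  ⨆ (φ : ℝ × ℝ → ℝ) (ψ : ℝ × ℝ → ℝ) (_ : ContDiff ℝ 1 φ ∧ HasCompactSupport φ ∧ ContDiff ℝ 1 ψ ∧
    HasCompactSupport ψ ∧ ∀ z, φ z ^ 2 + ψ z ^ 2 ≤ 1),
    ENNReal.ofReal (∫ z in E, (dx φ z + dy ψ z))

/-- The squared distance to `c`. -/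
def sq (c z : ℝ × ℝ) : ℝ := (z.1 - c.1) ^ 2 + (z.2 - c.2) ^ 2

/-- The energy density adapted to the point `c`. -/
noncomputable def en (c : ℝ × ℝ) (u : ℝ × ℝ → ℝ) (z : ℝ × ℝ) : ℝ :=
  lap u z ^ 2 + (dx u z ^ 2 + dy u z ^ 2) / sq c z + u z ^ 2 / sq c z ^ 2

/-- The weight `(δ ^ 2 + |z - c| ^ 2) ^ (-κ / 2)`. -/
noncomputable def wt (c : ℝ × ℝ) (κ δ : ℝ) (z : ℝ × ℝ) : ℝ := (δ ^ 2 + sq c z) ^ (-κ / 2)

/-- The support function of `E` in the direction `θ`. -/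
noncomputable def supp (E : Set (ℝ × ℝ)) (θ : ℝ) : ℝ :=
  sSup ((fun z : ℝ × ℝ => Real.cos θ * z.1 + Real.sin θ * z.2) '' E)

/-- The length of the boundary of a convex set by Cauchy's formula. -/
noncomputable def Cau (E : Set (ℝ × ℝ)) : ℝ := ∫ θ in (0 : ℝ)..(2 * Real.pi), supp E θ

/-- Nonempty bounded open convex sets. -/
structure Cvx (E : Set (ℝ × ℝ)) : Prop where
  op : IsOpen E
  co : Convex ℝ E
  bd : Bornology.IsBounded E
  ne : E.Nonempty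

/-- The half-plane through `c` with outer normal `(a, b)`. -/
def half (c : ℝ × ℝ) (a b : ℝ) : Set (ℝ × ℝ) := {z | a * (z.1 - c.1) + b * (z.2 - c.2) < 0}

/-- The set `Ω` with a corner at `c` cut off. -/
def cut (Ω : Set (ℝ × ℝ)) (c : ℝ × ℝ) (a b ε : ℝ) : Set (ℝ × ℝ) :=
  {z | z ∈ Ω ∧ a * (z.1 - c.1) + b * (z.2 - c.2) < -ε}

/-- The dilated set. -/
def dil (t : ℝ) (E : Set (ℝ × ℝ)) : Set (ℝ × ℝ) := (fun z : ℝ × ℝ => (t * z.1, t * z.2)) '' E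

end Pool.Agent.W792.Bk
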