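import Pool.Agent.W792.Bk.Stms

/-!
# The buckling load of planar sets: assembly
-/

namespace Pool.Agent.W792.Bk

open MeasureTheory Set

theorem half_of_supp {Ω : Set (ℝ × ℝ)} (ho : IsOpen Ω) {c : ℝ × ℝ} {a b : ℝ}
    (hab : a ≠ 0 ∨ b ≠ 0) (h : ∀ z ∈ Ω, a * (z.1 - c.1) + b * (z.2 - c.2) ≤ 0) :
    Ω ⊆ half c a b := by
  intro z hz
  have hpos : 0 < a ^ 2 + b ^ 2 := by
    rcases hab with h | h
    · have := sq_pos_of_ne_zero h; positivity
    · have := sq_pos_of_ne_zero h; positivity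
  by_contra hne
  have h0 : a * (z.1 - c.1) + b * (z.2 - c.2) = 0 :=
    le_antisymm (h z hz) (not_lt.1 hne)
  -- move a little in the direction `(a, b)`
  have hcont : Continuous fun s : ℝ => ((z.1 + s * a, z.2 + s * b) : ℝ × ℝ) := by fun_prop
  have hop : IsOpen ((fun s : ℝ => ((z.1 + s * a, z.2 + s * b) : ℝ × ℝ)) ⁻¹' Ω) :=
    ho.preimage hcont
  have h0m : (0 : ℝ) ∈ (fun s : ℝ => ((z.1 + s * a, z.2 + s * b) : ℝ × ℝ)) ⁻¹' Ω := by
    simpa using hz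
  obtain ⟨r, hr, hball⟩ := Metric.isOpen_iff.1 hop 0 h0m
  have hm : r / 2 ∈ Metric.ball (0 : ℝ) r := by
    rw [Metric.mem_ball, Real.dist_eq, sub_zero, abs_of_pos (by positivity)]
    linarith
  have h1 := h _ (hball hm)
  simp only at h1
  nlinarith [mul_pos (half_pos hr) hpos]

theorem final (hlow : S_perlow) (hup : S_perup) (hloss : S_loss) (hcor : S_corner)
    (hsc : S_scale) (p : ℝ) (Ω : Set (ℝ × ℝ)) (hΩ : Cvx Ω) (hP : per Ω ≤ ENNReal.ofReal p)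
    (hopt : ∀ Ω' : Set (ℝ × ℝ), Cvx Ω' → per Ω' ≤ ENNReal.ofReal p → Lam Ω ≤ Lam Ω')
    (c : ℝ × ℝ) (hc : c ∈ frontier Ω) (a b a' b' : ℝ) (hab : a ≠ 0 ∨ b ≠ 0)
    (hab' : a' ≠ 0 ∨ b' ≠ 0) (h : ∀ z ∈ Ω, a * (z.1 - c.1) + b * (z.2 - c.2) ≤ 0)
    (h' : ∀ z ∈ Ω, a' * (z.1 - c.1) + b' * (z.2 - c.2) ≤ 0) : a * b' = a' * b := by
  by_contra hne
  have hs := half_of_supp hΩ.op hab h
  have hs' := half_of_supp hΩ.op hab' h'
  obtain ⟨hL, C, ε₀, hC, hε₀, h1⟩ := hloss Ω c a b a' b' hΩ.op hΩ.bd hΩ.ne hs hs' hne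
  obtain ⟨c₁, ε₁, hc₁, hε₁, h2⟩ := hcor Ω c a b a' b' hΩ hc hs hs' hne
  have hCau : 0 < Cau Ω := (hsc Ω 1 hΩ one_pos).2.1
  set P := Cau Ω with hPdef
  set L := Lam Ω with hLdef
  -- a small `ε` with `C ε ^ (3 / 2) < (2 c₁ L / P) ε`
  set k : ℝ := 2 * c₁ * L / P with hk
  have hkpos : 0 < k := by positivity
  set ε : ℝ := min (min ε₀ ε₁ / 2) ((k / (2 * C)) ^ 2) with hε
  have hεpos : 0 < ε := by
    rw [hε]
    refine lt_min ?_ ?_
    · have := lt_min hε₀ hε₁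
      positivity
    · positivity
  have hm : 0 < min ε₀ ε₁ := lt_min hε₀ hε₁
  have hε0 : ε < ε₀ := by
    have h3 : ε ≤ min ε₀ ε₁ / 2 := min_le_left _ _
    have h4 : min ε₀ ε₁ ≤ ε₀ := min_le_left _ _
    linarith
  have hε1 : ε < ε₁ := by
    have h3 : ε ≤ min ε₀ ε₁ / 2 := min_le_left _ _
    have h4 : min ε₀ ε₁ ≤ ε₁ := min_le_right _ _
    linarith
  obtain ⟨hcv, hCc⟩ := h2 ε hεpos hε1
  have hLc := h1 ε hεpos hε0
  set Ωc := cut Ω c (a + a') (b + b') ε with hΩc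
  have hCc0 : 0 < Cau Ωc := (hsc Ωc 1 hcv one_pos).2.1
  set t : ℝ := P / Cau Ωc with ht
  have ht0 : 0 < t := by positivity
  obtain ⟨hcd, -, hCd, hLd⟩ := hsc Ωc t hcv ht0
  have hPd : per (dil t Ωc) ≤ ENNReal.ofReal p := by
    refine (hup _ hcd).trans ?_
    rw [hCd, ht, div_mul_cancel₀ _ hCc0.ne']
    exact (hlow Ω hΩ).trans hP
  have h5 := hopt _ hcd hPd
  rw [hLd] at h5
  have h6 : L * t ^ 2 ≤ L + C * ε ^ (3 / 2 : ℝ) := by
    rw [le_div_iff₀ (by positivity)] at h5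
    exact h5.trans hLc
  -- lower bound of `t`
  have h7 : 1 + c₁ * ε / P ≤ t := by
    rw [ht, le_div_iff₀ hCc0]
    calc (1 + c₁ * ε / P) * Cau Ωc ≤ (1 + c₁ * ε / P) * (P - c₁ * ε) := by
          refine mul_le_mul_of_nonneg_left hCc (by positivity)
      _ = P - (c₁ * ε) ^ 2 / P := by field_simp; ring
      _ ≤ P := by
          have : 0 ≤ (c₁ * ε) ^ 2 / P := by positivity
          linarith
  have h8 : L * (1 + 2 * (c₁ * ε / P)) ≤ L * t ^ 2 := by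
    refine mul_le_mul_of_nonneg_left ?_ hL.le
    have h9 : 0 ≤ c₁ * ε / P := by positivity
    nlinarith
  have h10 : k * ε ≤ C * ε ^ (3 / 2 : ℝ) := by
    have : k * ε = L * (1 + 2 * (c₁ * ε / P)) - L := by rw [hk]; ring
    linarith
  have h11 : ε ^ (3 / 2 : ℝ) = ε * Real.sqrt ε := by
    rw [Real.sqrt_eq_rpow, show (3 / 2 : ℝ) = 1 + 1 / 2 by norm_num,
      Real.rpow_add hεpos, Real.rpow_one]
  have h12 : Real.sqrt ε ≤ k / (2 * C) := by
    rw [Real.sqrt_le_left (by positivity)]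
    exact min_le_right _ _
  rw [h11] at h10
  have h13 : k ≤ C * Real.sqrt ε := by
    have : k * ε ≤ (C * Real.sqrt ε) * ε := by linarith
    exact le_of_mul_le_mul_right this hεpos
  have h14 : C * Real.sqrt ε ≤ k / 2 := by
    calc C * Real.sqrt ε ≤ C * (k / (2 * C)) := mul_le_mul_of_nonneg_left h12 hC.le
      _ = k / 2 := by field_simp
  linarith

end Pool.Agent.W792.Bk
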