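import Pool.Agent.W792.Bk.Stms

/-!
# Dilations
-/

namespace Pool.Agent.W792.Bk

open MeasureTheory Set
open scoped ContDiff Pointwise

theorem dil_eq (t : ℝ) (E : Set (ℝ × ℝ)) : dil t E = (fun z : ℝ × ℝ => t • z) '' E := by
  unfold dil
  congr 1

theorem cvx_dil {E : Set (ℝ × ℝ)} (hE : Cvx E) {t : ℝ} (ht : 0 < t) : Cvx (dil t E) := by
  have h1 : dil t E = t • E := by rw [dil_eq]; rfl
  rw [h1]
  exact ⟨hE.op.smul₀ ht.ne', hE.co.smul t, hE.bd.smul₀ t, hE.ne.smul_set⟩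

/-- the linear functional -/
noncomputable def lin (θ : ℝ) (z : ℝ × ℝ) : ℝ := Real.cos θ * z.1 + Real.sin θ * z.2

theorem exists_bd {E : Set (ℝ × ℝ)} (hE : Bornology.IsBounded E) :
    ∃ M : ℝ, 0 ≤ M ∧ ∀ z ∈ E, |z.1| ≤ M ∧ |z.2| ≤ M := by
  obtain ⟨M, hM⟩ := hE.exists_norm_le
  refine ⟨max M 0, le_max_right _ _, fun z hz => ?_⟩
  have h := hM z hz
  have h1 : |z.1| ≤ ‖z‖ := norm_fst_le z
  have h2 : |z.2| ≤ ‖z‖ := norm_snd_le z
  exact ⟨(h1.trans h).trans (le_max_left _ _), (h2.trans h).trans (le_max_left _ _)⟩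

theorem lin_le {M : ℝ} {z : ℝ × ℝ} (h1 : |z.1| ≤ M) (h2 : |z.2| ≤ M) (θ : ℝ) :
    |lin θ z| ≤ 2 * M := by
  unfold lin
  have hc := Real.abs_cos_le_one θ
  have hs := Real.abs_sin_le_one θ
  calc |Real.cos θ * z.1 + Real.sin θ * z.2| ≤ |Real.cos θ * z.1| + |Real.sin θ * z.2| :=
        abs_add_le _ _
    _ = |Real.cos θ| * |z.1| + |Real.sin θ| * |z.2| := by rw [abs_mul, abs_mul]
    _ ≤ 1 * M + 1 * M := by
        gcongr
    _ = 2 * M := by ring

theorem bdd_lin {E : Set (ℝ × ℝ)} (hE : Bornology.IsBounded E) (θ : ℝ) :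
    BddAbove (lin θ '' E) := by
  obtain ⟨M, -, hM⟩ := exists_bd hE
  refine ⟨2 * M, ?_⟩
  rintro _ ⟨z, hz, rfl⟩
  exact (le_abs_self _).trans (lin_le (hM z hz).1 (hM z hz).2 θ)

theorem supp_eq (E : Set (ℝ × ℝ)) (θ : ℝ) : supp E θ = sSup (lin θ '' E) := rfl

theorem supp_lip {E : Set (ℝ × ℝ)} (hE : Bornology.IsBounded E) (hne : E.Nonempty) :
    ∃ K : NNReal, LipschitzWith K (supp E) := by
  obtain ⟨M, hM0, hM⟩ := exists_bd hE
  refine ⟨Real.toNNReal (2 * M), LipschitzWith.of_le_add_mul _ fun θ φ => ?_⟩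
  rw [Real.coe_toNNReal _ (by positivity)]
  rw [supp_eq, supp_eq]
  refine csSup_le (hne.image _) ?_
  rintro _ ⟨z, hz, rfl⟩
  have h1 : lin φ z ≤ sSup (lin φ '' E) := le_csSup (bdd_lin hE φ) ⟨z, hz, rfl⟩
  have h2 : lin θ z - lin φ z ≤ 2 * M * dist θ φ := by
    unfold lin
    have hc : |Real.cos θ - Real.cos φ| ≤ |θ - φ| := by
      have := Real.abs_cos_sub_cos_le θ φ
      exact this
    have hs : |Real.sin θ - Real.sin φ| ≤ |θ - φ| := Real.abs_sin_sub_sin_le θ φ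
    rw [Real.dist_eq]
    calc Real.cos θ * z.1 + Real.sin θ * z.2 - (Real.cos φ * z.1 + Real.sin φ * z.2)
        = (Real.cos θ - Real.cos φ) * z.1 + (Real.sin θ - Real.sin φ) * z.2 := by ring
      _ ≤ |(Real.cos θ - Real.cos φ) * z.1| + |(Real.sin θ - Real.sin φ) * z.2| :=
          add_le_add (le_abs_self _) (le_abs_self _)
      _ = |Real.cos θ - Real.cos φ| * |z.1| + |Real.sin θ - Real.sin φ| * |z.2| := by
          rw [abs_mul, abs_mul]
      _ ≤ |θ - φ| * M + |θ - φ| * M := by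
          have := hM z hz
          gcongr
          · exact this.1
          · exact this.2
      _ = 2 * M * |θ - φ| := by ring
  linarith

theorem supp_cont {E : Set (ℝ × ℝ)} (hE : Bornology.IsBounded E) (hne : E.Nonempty) :
    Continuous (supp E) := by
  obtain ⟨K, hK⟩ := supp_lip hE hne
  exact hK.continuous

theorem supp_dil {E : Set (ℝ × ℝ)} {t : ℝ} (ht : 0 < t) (θ : ℝ) :
    supp (dil t E) θ = t * supp E θ := by
  rw [supp_eq, supp_eq, dil_eq, image_image]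
  have h1 : (fun z : ℝ × ℝ => lin θ (t • z)) = fun z => t • lin θ z := by
    funext z
    unfold lin
    simp only [Prod.smul_fst, Prod.smul_snd, smul_eq_mul]
    ring
  rw [h1, ← smul_eq_mul, ← Real.sSup_smul_of_nonneg ht.le]
  congr 1
  rw [← image_smul, image_image]

theorem Cau_dil {E : Set (ℝ × ℝ)} {t : ℝ} (ht : 0 < t) : Cau (dil t E) = t * Cau E := by
  unfold Cau
  rw [← intervalIntegral.integral_const_mul]
  congr 1
  funext θ
  exact supp_dil ht θ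

theorem lin_add_pi (θ : ℝ) (z : ℝ × ℝ) : lin (θ + Real.pi) z = -lin θ z := by
  unfold lin
  rw [Real.cos_add_pi, Real.sin_add_pi]
  ring

theorem width_pos {E : Set (ℝ × ℝ)} (hE : Cvx E) (θ : ℝ) : 0 < supp E θ + supp E (θ + Real.pi) := by
  obtain ⟨z, hz⟩ := hE.ne
  -- a second point
  have hcont : Continuous fun s : ℝ => ((z.1 + s * Real.cos θ, z.2 + s * Real.sin θ) : ℝ × ℝ) := by
    fun_prop
  have hop : IsOpen ((fun s : ℝ => ((z.1 + s * Real.cos θ, z.2 + s * Real.sin θ) : ℝ × ℝ)) ⁻¹' E) :=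
    hE.op.preimage hcont
  have h0m : (0 : ℝ) ∈
      (fun s : ℝ => ((z.1 + s * Real.cos θ, z.2 + s * Real.sin θ) : ℝ × ℝ)) ⁻¹' E := by
    simpa using hz
  obtain ⟨r, hr, hball⟩ := Metric.isOpen_iff.1 hop 0 h0m
  have hm : r / 2 ∈ Metric.ball (0 : ℝ) r := by
    rw [Metric.mem_ball, Real.dist_eq, sub_zero, abs_of_pos (by positivity)]
    linarith
  have h1 : ((z.1 + r / 2 * Real.cos θ, z.2 + r / 2 * Real.sin θ) : ℝ × ℝ) ∈ E := hball hm
  have h2 : lin θ (z.1 + r / 2 * Real.cos θ, z.2 + r / 2 * Real.sin θ) ≤ supp E θ :=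
    le_csSup (bdd_lin hE.bd θ) ⟨_, h1, rfl⟩
  have h3 : lin (θ + Real.pi) z ≤ supp E (θ + Real.pi) :=
    le_csSup (bdd_lin hE.bd _) ⟨_, hz, rfl⟩
  rw [lin_add_pi] at h3
  have h4 : lin θ (z.1 + r / 2 * Real.cos θ, z.2 + r / 2 * Real.sin θ) = lin θ z + r / 2 := by
    unfold lin
    simp only
    have := Real.sin_sq_add_cos_sq θ
    nlinarith
  linarith

theorem Cau_pos {E : Set (ℝ × ℝ)} (hE : Cvx E) : 0 < Cau E := by
  have hc := supp_cont hE.bd hE.ne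
  have h1 : Cau E = ∫ θ in (0 : ℝ)..Real.pi, (supp E θ + supp E (θ + Real.pi)) := by
    unfold Cau
    have hc2 : Continuous fun θ => supp E (θ + Real.pi) := hc.comp (by fun_prop)
    rw [intervalIntegral.integral_add (hc.intervalIntegrable _ _)
      (hc2.intervalIntegrable _ _)]
    rw [intervalIntegral.integral_comp_add_right (fun θ => supp E θ) Real.pi]
    rw [show (0 : ℝ) + Real.pi = Real.pi by ring, show Real.pi + Real.pi = 2 * Real.pi by ring]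
    rw [intervalIntegral.integral_add_adjacent_intervals (hc.intervalIntegrable _ _)
      (hc.intervalIntegrable _ _)]
  rw [h1]
  refine intervalIntegral.intervalIntegral_pos_of_pos ?_ (fun θ => width_pos hE θ) Real.pi_pos
  have hc2 : Continuous fun θ => supp E (θ + Real.pi) := hc.comp (by fun_prop)
  exact (hc.add hc2).intervalIntegrable _ _

/-! ### the eigenvalue -/

/-- the dilated function -/
def scl (t : ℝ) (u : ℝ × ℝ → ℝ) : ℝ × ℝ → ℝ := fun z => u (t • z)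

theorem dx_scl {t : ℝ} {u : ℝ × ℝ → ℝ} (hu : Differentiable ℝ u) :
    dx (scl t u) = fun z => t * dx u (t • z) := by
  funext z
  unfold dx scl
  have h1 : HasFDerivAt (fun z : ℝ × ℝ => t • z) (t • ContinuousLinearMap.id ℝ (ℝ × ℝ)) z :=
    (ContinuousLinearMap.hasFDerivAt (t • ContinuousLinearMap.id ℝ (ℝ × ℝ)))
  have h2 := ((hu (t • z)).hasFDerivAt.comp z h1).fderiv
  have h3 : (fun z : ℝ × ℝ => u (t • z)) = u ∘ (fun z => t • z) := rfl
  rw [h3, h2]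
  simp

theorem dy_scl {t : ℝ} {u : ℝ × ℝ → ℝ} (hu : Differentiable ℝ u) :
    dy (scl t u) = fun z => t * dy u (t • z) := by
  funext z
  unfold dy scl
  have h1 : HasFDerivAt (fun z : ℝ × ℝ => t • z) (t • ContinuousLinearMap.id ℝ (ℝ × ℝ)) z :=
    (ContinuousLinearMap.hasFDerivAt (t • ContinuousLinearMap.id ℝ (ℝ × ℝ)))
  have h2 := ((hu (t • z)).hasFDerivAt.comp z h1).fderiv
  have h3 : (fun z : ℝ × ℝ => u (t • z)) = u ∘ (fun z => t • z) := rfl
  rw [h3, h2]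
  simp

theorem contDiff_dx {u : ℝ × ℝ → ℝ} (hu : ContDiff ℝ ∞ u) : ContDiff ℝ ∞ (dx u) :=
  (hu.fderiv_right (m := ∞) (by simp)).clm_apply contDiff_const

theorem contDiff_dy {u : ℝ × ℝ → ℝ} (hu : ContDiff ℝ ∞ u) : ContDiff ℝ ∞ (dy u) :=
  (hu.fderiv_right (m := ∞) (by simp)).clm_apply contDiff_const

theorem dif {u : ℝ × ℝ → ℝ} (hu : ContDiff ℝ ∞ u) : Differentiable ℝ u :=
  hu.differentiable (by simp)

theorem dx_const_mul {t : ℝ} {v : ℝ × ℝ → ℝ} (hv : Differentiable ℝ v) :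
    dx (fun z => t * v z) = fun z => t * dx v z := by
  funext z
  unfold dx
  rw [fderiv_const_mul (hv z)]
  simp

theorem dy_const_mul {t : ℝ} {v : ℝ × ℝ → ℝ} (hv : Differentiable ℝ v) :
    dy (fun z => t * v z) = fun z => t * dy v z := by
  funext z
  unfold dy
  rw [fderiv_const_mul (hv z)]
  simp

theorem scl_cd {t : ℝ} {u : ℝ × ℝ → ℝ} (hu : ContDiff ℝ ∞ u) : ContDiff ℝ ∞ (scl t u) :=
  hu.comp (contDiff_const_smul t)

theorem lap_scl {t : ℝ} {u : ℝ × ℝ → ℝ} (hu : ContDiff ℝ ∞ u) :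
    lap (scl t u) = fun z => t ^ 2 * lap u (t • z) := by
  funext z
  unfold lap
  rw [dx_scl (dif hu), dy_scl (dif hu)]
  have h1 : (fun z => t * dx u (t • z)) = fun z => t * scl t (dx u) z := rfl
  have h2 : (fun z => t * dy u (t • z)) = fun z => t * scl t (dy u) z := rfl
  rw [h1, h2, dx_const_mul (dif (scl_cd (contDiff_dx hu))),
    dy_const_mul (dif (scl_cd (contDiff_dy hu))), dx_scl (dif (contDiff_dx hu)),
    dy_scl (dif (contDiff_dy hu))]
  simp only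
  ring

theorem Dq_scl {t : ℝ} (ht : 0 < t) {u : ℝ × ℝ → ℝ} (hu : ContDiff ℝ ∞ u) :
    Dq (scl t u) (scl t u) = t ^ 2 * Dq u u := by
  unfold Dq
  rw [lap_scl hu]
  have h1 : (fun z : ℝ × ℝ => t ^ 2 * lap u (t • z) * (t ^ 2 * lap u (t • z))) =
      fun z => t ^ 4 * ((fun w => lap u w * lap u w) (t • z)) := by
    funext z
    simp only
    ring
  rw [h1, integral_const_mul,
    Measure.integral_comp_smul volume (fun w => lap u w * lap u w) t]
  have h2 : Module.finrank ℝ (ℝ × ℝ) = 2 := by simp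
  rw [h2, abs_of_pos (by positivity), smul_eq_mul]
  field_simp

theorem Nq_scl {t : ℝ} (ht : 0 < t) {u : ℝ × ℝ → ℝ} (hu : ContDiff ℝ ∞ u) :
    Nq (scl t u) (scl t u) = Nq u u := by
  unfold Nq
  rw [dx_scl (dif hu), dy_scl (dif hu)]
  have h1 : (fun z : ℝ × ℝ => t * dx u (t • z) * (t * dx u (t • z)) +
      t * dy u (t • z) * (t * dy u (t • z))) =
      fun z => t ^ 2 * ((fun w => dx u w * dx u w + dy u w * dy u w) (t • z)) := by
    funext z
    simp only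
    ring
  rw [h1, integral_const_mul,
    Measure.integral_comp_smul volume (fun w => dx u w * dx u w + dy u w * dy u w) t]
  have h2 : Module.finrank ℝ (ℝ × ℝ) = 2 := by simp
  rw [h2, abs_of_pos (by positivity), smul_eq_mul]
  field_simp

theorem tsupport_scl {t : ℝ} (ht : 0 < t) (u : ℝ × ℝ → ℝ) :
    tsupport (scl t u) = (fun z : ℝ × ℝ => t • z) ⁻¹' tsupport u := by
  have h := (Homeomorph.smulOfNeZero t ht.ne' : (ℝ × ℝ) ≃ₜ (ℝ × ℝ))
  have h1 : Function.support (scl t u) =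
      (Homeomorph.smulOfNeZero t ht.ne' : (ℝ × ℝ) ≃ₜ (ℝ × ℝ)) ⁻¹' Function.support u := by
    ext z
    simp [scl]
  unfold tsupport
  rw [h1, ← Homeomorph.preimage_closure]
  rfl

theorem scl_mem {t : ℝ} (ht : 0 < t) {E : Set (ℝ × ℝ)} {u : ℝ × ℝ → ℝ} (hu : u ∈ Tst (dil t E)) :
    scl t u ∈ Tst E := by
  refine ⟨scl_cd hu.1, ?_, ?_⟩
  · exact hu.2.1.comp_homeomorph (Homeomorph.smulOfNeZero t ht.ne' : (ℝ × ℝ) ≃ₜ (ℝ × ℝ))
  · rw [tsupport_scl ht]
    intro z hz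
    have h1 := hu.2.2 hz
    rw [dil_eq] at h1
    obtain ⟨w, hw, hwz⟩ := h1
    have h2 : w = z := smul_right_injective _ ht.ne' hwz
    exact h2 ▸ hw

theorem dil_dil {t : ℝ} (ht : 0 < t) (E : Set (ℝ × ℝ)) : dil t⁻¹ (dil t E) = E := by
  rw [dil_eq, dil_eq, image_image]
  simp [smul_smul, inv_mul_cancel₀ ht.ne']

theorem scl_scl {t : ℝ} (ht : 0 < t) (u : ℝ × ℝ → ℝ) : scl t (scl t⁻¹ u) = u := by
  funext z
  simp [scl, smul_smul, inv_mul_cancel₀ ht.ne']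

theorem Lam_set {t : ℝ} (ht : 0 < t) (E : Set (ℝ × ℝ)) :
    {q | ∃ u ∈ Tst E, u ≠ 0 ∧ q = Dq u u / Nq u u} =
      t ^ 2 • {q | ∃ u ∈ Tst (dil t E), u ≠ 0 ∧ q = Dq u u / Nq u u} := by
  have key : ∀ u : ℝ × ℝ → ℝ, ContDiff ℝ ∞ u →
      Dq (scl t u) (scl t u) / Nq (scl t u) (scl t u) = t ^ 2 * (Dq u u / Nq u u) := by
    intro u hu
    rw [Dq_scl ht hu, Nq_scl ht hu]
    ring
  ext q
  rw [mem_smul_set]
  constructor
  · rintro ⟨u, hu, hu0, rfl⟩
    have h1 : scl t⁻¹ u ∈ Tst (dil t E) := by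
      refine scl_mem (inv_pos.2 ht) ?_
      rw [dil_dil ht]
      exact hu
    refine ⟨_, ⟨scl t⁻¹ u, h1, ?_, rfl⟩, ?_⟩
    · intro h
      apply hu0
      rw [← scl_scl ht u, h]
      rfl
    · rw [smul_eq_mul, ← key _ h1.1, scl_scl ht]
  · rintro ⟨_, ⟨u, hu, hu0, rfl⟩, rfl⟩
    refine ⟨scl t u, scl_mem ht hu, ?_, ?_⟩
    · intro h
      apply hu0
      have h2 := scl_scl (inv_pos.2 ht) u
      rw [inv_inv] at h2
      rw [← h2, h]
      rfl
    · rw [smul_eq_mul, ← key _ hu.1]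

theorem Lam_dil {t : ℝ} (ht : 0 < t) (E : Set (ℝ × ℝ)) : Lam (dil t E) = Lam E / t ^ 2 := by
  unfold Lam
  rw [Lam_set ht E, Real.sInf_smul_of_nonneg (by positivity), smul_eq_mul]
  field_simp

theorem main_scale : S_scale := fun _ _ hE ht =>
  ⟨cvx_dil hE ht, Cau_pos hE, Cau_dil ht, Lam_dil ht _⟩

end Pool.Agent.W792.Bk
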