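import Pool.Agent.W792.Bk.Defs

/-!
# The buckling load of planar sets: statements of the parts
-/

namespace Pool.Agent.W792.Bk

open MeasureTheory Set
open scoped ContDiff

/-- Two Wirtinger inequalities on an interval of length `π`. -/
def S_wir : Prop :=
  ∀ (a : ℝ) (φ : ℝ → ℝ), ContDiff ℝ ∞ φ → HasCompactSupport φ →
    tsupport φ ⊆ Ioo a (a + Real.pi) →
    ∫ x, φ x ^ 2 ≤ ∫ x, deriv φ x ^ 2 ∧
      4 * ∫ x, deriv φ x ^ 2 ≤ ∫ x, deriv (deriv φ) x ^ 2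

/-- The quadratic identity; the first coordinate is `t = log r`, the second one is the angle. -/
def S_id : Prop :=
  ∀ (q : ℝ → ℝ) (h : ℝ × ℝ → ℝ), ContDiff ℝ ∞ q → ContDiff ℝ ∞ h → HasCompactSupport h →
    ∫ z : ℝ × ℝ, (dx (dx h) z + 2 * (1 - q z.1) * dx h z +
          ((1 - q z.1) ^ 2 - deriv q z.1) * h z + dy (dy h) z) *
        (dx (dx h) z + 2 * (1 + q z.1) * dx h z +
          ((1 + q z.1) ^ 2 + deriv q z.1) * h z + dy (dy h) z) =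
      ∫ z : ℝ × ℝ, (dx (dx h) z ^ 2 + 2 * dy (dx h) z ^ 2 + dy (dy h) z ^ 2 +
        (2 - 6 * q z.1 ^ 2) * dx h z ^ 2 - (2 + 2 * q z.1 ^ 2) * dy h z ^ 2 +
        ((1 - q z.1 ^ 2) ^ 2 + 4 * deriv (fun t => q t * deriv q t) z.1 - deriv q z.1 ^ 2) *
          h z ^ 2)

/-- The weighted positivity in the coordinates `(t, θ)`, `t = log r`. -/
def S_form : Prop :=
  ∃ C : ℝ, 0 < C ∧ ∀ (κ δ a : ℝ) (U : ℝ × ℝ → ℝ), 0 ≤ κ → κ ≤ 3 / 2 → 0 < δ →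
    U ∈ Tst (univ ×ˢ Ioo a (a + Real.pi)) →
    ∫ z : ℝ × ℝ, (δ ^ 2 + Real.exp (2 * z.1)) ^ (-κ / 2) * Real.exp (-2 * z.1) *
        (lap U z ^ 2 + dx U z ^ 2 + dy U z ^ 2 + U z ^ 2) ≤
      C * ∫ z : ℝ × ℝ, Real.exp (-2 * z.1) * lap U z *
        lap (fun z => (δ ^ 2 + Real.exp (2 * z.1)) ^ (-κ / 2) * U z) z

/-- The weighted positivity for functions supported in a half-plane. -/
def S_coer : Prop :=
  ∃ C : ℝ, 0 < C ∧ ∀ (κ δ a b : ℝ) (c : ℝ × ℝ) (u : ℝ × ℝ → ℝ), 0 ≤ κ → κ ≤ 3 / 2 → 0 < δ →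
    (a ≠ 0 ∨ b ≠ 0) → u ∈ Tst (half c a b) →
    ∫ z, wt c κ δ z * en c u z ≤ C * Dq u (fun z => wt c κ δ z * u z)

/-- The decay of the energy of almost minimizers at a boundary point. -/
def S_dec : Prop :=
  ∀ (Ω : Set (ℝ × ℝ)) (c : ℝ × ℝ) (a b : ℝ), IsOpen Ω → Bornology.IsBounded Ω → Ω.Nonempty →
    (a ≠ 0 ∨ b ≠ 0) → Ω ⊆ half c a b →
    0 < Lam Ω ∧ ∃ C : ℝ, 0 < C ∧ ∀ δ : ℝ, 0 < δ → δ ≤ 1 → ∃ η₀ : ℝ, 0 < η₀ ∧ ∀ u ∈ Tst Ω,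
      Nq u u = 1 → Dq u u ≤ Lam Ω + η₀ →
      ∫ z in {z | sq c z < δ ^ 2}, en c u z ≤ C * δ ^ (3 / 2 : ℝ)

/-- Cutting off a function near a point. -/
def S_cut : Prop :=
  ∃ C : ℝ, 0 < C ∧ ∀ (c : ℝ × ℝ) (δ : ℝ) (u : ℝ × ℝ → ℝ), 0 < δ → ContDiff ℝ ∞ u →
    HasCompactSupport u → c ∉ tsupport u → ∃ v : ℝ × ℝ → ℝ, ContDiff ℝ ∞ v ∧
      HasCompactSupport v ∧ tsupport v ⊆ tsupport u ∧ (∀ z, sq c z < (δ / 2) ^ 2 → v z = 0) ∧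
      Dq v v ≤ Dq u u + C * ∫ z in {z | sq c z < δ ^ 2}, en c u z ∧
      Nq u u - C * δ ^ 2 * ∫ z in {z | sq c z < δ ^ 2}, en c u z ≤ Nq v v

/-- Cutting off a corner changes the eigenvalue by `O (ε ^ (3 / 2))`. -/
def S_loss : Prop :=
  ∀ (Ω : Set (ℝ × ℝ)) (c : ℝ × ℝ) (a b a' b' : ℝ), IsOpen Ω → Bornology.IsBounded Ω →
    Ω.Nonempty → Ω ⊆ half c a b → Ω ⊆ half c a' b' → a * b' ≠ a' * b →
    0 < Lam Ω ∧ ∃ C ε₀ : ℝ, 0 < C ∧ 0 < ε₀ ∧ ∀ ε : ℝ, 0 < ε → ε < ε₀ →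
      Lam (cut Ω c (a + a') (b + b') ε) ≤ Lam Ω + C * ε ^ (3 / 2 : ℝ)

/-- Cauchy's formula, lower bound of the perimeter. -/
def S_perlow : Prop := ∀ E : Set (ℝ × ℝ), Cvx E → ENNReal.ofReal (Cau E) ≤ per E

/-- Cauchy's formula, upper bound of the perimeter. -/
def S_perup : Prop := ∀ E : Set (ℝ × ℝ), Cvx E → per E ≤ ENNReal.ofReal (Cau E)

/-- Cutting off a corner decreases the length of the boundary by at least `c₁ ε`. -/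
def S_corner : Prop :=
  ∀ (Ω : Set (ℝ × ℝ)) (c : ℝ × ℝ) (a b a' b' : ℝ), Cvx Ω → c ∈ frontier Ω → Ω ⊆ half c a b →
    Ω ⊆ half c a' b' → a * b' ≠ a' * b →
    ∃ c₁ ε₀ : ℝ, 0 < c₁ ∧ 0 < ε₀ ∧ ∀ ε : ℝ, 0 < ε → ε < ε₀ →
      Cvx (cut Ω c (a + a') (b + b') ε) ∧
      Cau (cut Ω c (a + a') (b + b') ε) ≤ Cau Ω - c₁ * ε

/-- Dilations. -/
def S_scale : Prop :=
  ∀ (E : Set (ℝ × ℝ)) (t : ℝ), Cvx E → 0 < t →
    Cvx (dil t E) ∧ 0 < Cau E ∧ Cau (dil t E) = t * Cau E ∧ Lam (dil t E) = Lam E / t ^ 2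

end Pool.Agent.W792.Bk
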